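import Pool.Agent.helper59.MLG.Coarea

set_option autoImplicit false
set_option linter.unusedSectionVars false

namespace Pool.Agent.MLG

open MeasureTheory Set Filter Topology Module
open scoped ENNReal ContDiff

theorem COA (hTVS : TVS_stmt) (hLSC : LSC_stmt) (hGRR : GRR_stmt) (hMES : MES_stmt) : COA_stmt := by
  intro V _ _ _ _ _ _ hV w hw hU
  have hg : Continuous (gr w) := ((hGRR V hV).1 w hw).continuous
  have hdiff : Differentiable ℝ w := hw.differentiable (by norm_num)
  refine le_trans ?_ (le_trans (COA_slice univ w hw.continuous hg) ?_)
  · refine lintegral_mono fun t => ?_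
    have hE : MeasurableSet {x | t < w x} := (isOpen_lt continuous_const hw.continuous).measurableSet
    change per {x | t < w x} ≤ liminf (fun k => COA_S univ w k t) atTop
    rw [COA_per _ hE]
    have hs : ∀ k, ContDiff ℝ ∞ (fun x => COA_st k t (w x)) := fun k => (COA_st_smooth k t).comp hw
    have hL1 : L1 (fun k x => COA_st k t (w x)) (ind {x | t < w x}) := by
      refine COA_L1 hV hMES _ _ (fun k => (hs k).continuous.measurable) (measurable_const.indicator hE)
        ?_ ?_
      · intro k x
        have h1 := COA_st_nonneg k t (w x)
        have h2 := COA_st_le_one k t (w x)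
        have h3 := (COA_isU_ind _ hE).nonneg x
        have h4 := (COA_isU_ind _ hE).le_one x
        rw [abs_le]
        constructor <;> linarith
      · intro x
        have h := COA_st_lim t (w x)
        have h2 : (if t < w x then (1 : ℝ) else 0) = ind {x | t < w x} x := by
          simp only [ind, Set.indicator_apply, mem_ofPred_eq]
        rw [← h2]
        exact h
    have hl := hLSC V hV (fun k x => COA_st k t (w x)) (ind {x | t < w x})
      (fun k => ⟨(hs k).continuous.measurable, fun x => COA_st_nonneg k t (w x),
        fun x => COA_st_le_one k t (w x)⟩) (COA_isU_ind _ hE) hL1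
    refine hl.trans (le_of_eq ?_)
    refine congrArg (fun f => liminf f atTop) (funext fun k => ?_)
    rw [hTVS V hV _ (hs k)]
    unfold COA_S
    rw [Measure.restrict_univ]
    exact lintegral_congr fun x => COA_enorm_gr hGRR hV w hdiff k t x
  · rw [Measure.restrict_univ]

end Pool.Agent.MLG
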