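import Pool.Agent.helper59.MLG.Coarea

set_option autoImplicit false
set_option linter.unusedSectionVars false

namespace Pool.Agent.MLG

open MeasureTheory Set Filter Topology Module
open scoped ENNReal ContDiff

theorem CUT_add (a b : ℕ → ℝ≥0∞) :
    liminf a atTop + liminf b atTop ≤ liminf (fun k => a k + b k) atTop := by
  rw [liminf_eq_iSup_iInf_of_nat, liminf_eq_iSup_iInf_of_nat, liminf_eq_iSup_iInf_of_nat]
  refine ENNReal.iSup_add_iSup_le fun i j => ?_
  refine le_trans ?_ (le_iSup _ (max i j))
  refine le_iInf₂ fun k hk => add_le_add ?_ ?_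
  · exact iInf₂_le k ((le_max_left i j).trans hk)
  · exact iInf₂_le k ((le_max_right i j).trans hk)

theorem CUT_const (c : ℝ≥0∞) (b : ℕ → ℝ≥0∞) :
    liminf (fun k => c + 2 * b k) atTop = c + 2 * liminf b atTop := by
  have h := liminf_const_add (atTop : Filter ℕ) (fun k => 2 * b k) c (by isBoundedDefault)
    (by isBoundedDefault)
  rw [h, ENNReal.liminf_const_mul_of_ne_top (by norm_num)]

section CUTsec

variable {V : Type} [NormedAddCommGroup V] [InnerProductSpace ℝ V] [FiniteDimensional ℝ V] [MeasurableSpace V]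
  [BorelSpace V] [Group V]

theorem CUT_cut (z : V → ℝ) (hz : Cut z) (k : ℕ) (t : ℝ) (ht : 0 < t) : Cut (fun x => COA_st k t (z x)) where
  smooth := (COA_st_smooth k t).comp hz.smooth
  supp := by
    refine hz.supp.mono' ?_
    refine subset_trans ?_ subset_closure
    intro x hx
    rw [Function.mem_support] at hx ⊢
    intro h0
    apply hx
    unfold COA_st
    rw [h0, Real.smoothTransition.zero_of_nonpos]
    exact mul_nonpos_of_nonneg_of_nonpos (by positivity) (by linarith)
  nonneg x := COA_st_nonneg k t (z x)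
  le_one x := COA_st_le_one k t (z x)

theorem CUT_slice (hCTT : CTT_stmt) (hLSC : LSC_stmt) (hGRR : GRR_stmt) (hMES : MES_stmt) (hV : IsLie V)
    (A : Set V) (z : V → ℝ) (hA : MeasurableSet A) (hz : Cut z) (t : ℝ) (ht : 0 < t) :
    per (A ∩ {x | t < z x}) + per (A \ {x | t < z x}) ≤
      per A + 2 * liminf (fun k => COA_S A z k t) atTop := by
  have hdiff : Differentiable ℝ z := hz.smooth.differentiable (by norm_num)
  have hE : MeasurableSet {x | t < z x} := (isOpen_lt continuous_const hz.smooth.continuous).measurableSet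
  have hs : ∀ k, ContDiff ℝ ∞ (fun x => COA_st k t (z x)) := fun k => (COA_st_smooth k t).comp hz.smooth
  have hUA := COA_isU_ind A hA
  have hU1 := COA_isU_ind _ (hA.inter hE)
  have hU2 := COA_isU_ind _ (hA.diff hE)
  have hlim : ∀ x, Tendsto (fun k => COA_st k t (z x)) atTop (𝓝 (ind {x | t < z x} x)) := by
    intro x
    have h := COA_st_lim t (z x)
    have h2 : (if t < z x then (1 : ℝ) else 0) = ind {x | t < z x} x := by
      simp only [ind, Set.indicator_apply, mem_ofPred_eq]
    rw [← h2]
    exact h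
  have e1 : ∀ x, ind {x | t < z x} x * ind A x = ind (A ∩ {x | t < z x}) x := by
    intro x
    by_cases h1 : x ∈ A <;> by_cases h2 : t < z x <;> simp [ind, h1, h2]
  have e2 : ∀ x, (1 - ind {x | t < z x} x) * ind A x = ind (A \ {x | t < z x}) x := by
    intro x
    by_cases h1 : x ∈ A <;> by_cases h2 : t < z x <;> simp [ind, h1, h2]
  have m1 : ∀ k, Measurable (fun x => COA_st k t (z x)) := fun k => (hs k).continuous.measurable
  have mU1 : ∀ k, IsU (fun x => COA_st k t (z x) * ind A x) := fun k =>
    ⟨(m1 k).mul hUA.meas, fun x => mul_nonneg (COA_st_nonneg k t (z x)) (hUA.nonneg x), fun x =>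
      mul_le_one₀ (COA_st_le_one k t (z x)) (hUA.nonneg x) (hUA.le_one x)⟩
  have mU2 : ∀ k, IsU (fun x => (1 - COA_st k t (z x)) * ind A x) := fun k =>
    ⟨(measurable_const.sub (m1 k)).mul hUA.meas, fun x =>
      mul_nonneg (by linarith [COA_st_le_one k t (z x)]) (hUA.nonneg x), fun x =>
      mul_le_one₀ (by linarith [COA_st_nonneg k t (z x)]) (hUA.nonneg x) (hUA.le_one x)⟩
  have L1a : L1 (fun k x => COA_st k t (z x) * ind A x) (ind (A ∩ {x | t < z x})) := by
    refine COA_L1 hV hMES _ _ (fun k => (mU1 k).meas) hU1.meas ?_ ?_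
    · intro k x
      have h1 := (mU1 k).nonneg x
      have h2 := (mU1 k).le_one x
      have h3 := hU1.nonneg x
      have h4 := hU1.le_one x
      rw [abs_le]
      constructor <;> linarith
    · intro x
      rw [← e1 x]
      exact (hlim x).mul_const _
  have L1b : L1 (fun k x => (1 - COA_st k t (z x)) * ind A x) (ind (A \ {x | t < z x})) := by
    refine COA_L1 hV hMES _ _ (fun k => (mU2 k).meas) hU2.meas ?_ ?_
    · intro k x
      have h1 := (mU2 k).nonneg x
      have h2 := (mU2 k).le_one x
      have h3 := hU2.nonneg x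
      have h4 := hU2.le_one x
      rw [abs_le]
      constructor <;> linarith
    · intro x
      rw [← e2 x]
      exact ((tendsto_const_nhds.sub (hlim x))).mul_const _
  have l1 := hLSC V hV _ _ mU1 hU1 L1a
  have l2 := hLSC V hV _ _ mU2 hU2 L1b
  rw [COA_per _ (hA.inter hE), COA_per _ (hA.diff hE), COA_per _ hA]
  calc tv (ind (A ∩ {x | t < z x})) + tv (ind (A \ {x | t < z x}))
      ≤ liminf (fun k => tv (fun x => COA_st k t (z x) * ind A x)) atTop
        + liminf (fun k => tv (fun x => (1 - COA_st k t (z x)) * ind A x)) atTop := add_le_add l1 l2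
    _ ≤ liminf (fun k => tv (fun x => COA_st k t (z x) * ind A x)
        + tv (fun x => (1 - COA_st k t (z x)) * ind A x)) atTop := CUT_add _ _
    _ ≤ liminf (fun k => tv (ind A) + 2 * COA_S A z k t) atTop := by
        refine liminf_le_liminf (Eventually.of_forall fun k => ?_)
        refine (hCTT V hV (ind A) _ hUA (CUT_cut z hz k t ht)).trans ?_
        refine add_le_add le_rfl (mul_le_mul' le_rfl ?_)
        unfold COA_S
        rw [← lintegral_indicator hA]
        refine lintegral_mono fun x => ?_
        rw [COA_enorm_gr hGRR hV z hdiff k t x]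
        by_cases hx : x ∈ A
        · simp [ind, hx]
        · simp [ind, hx]
    _ = tv (ind A) + 2 * liminf (fun k => COA_S A z k t) atTop := by
        exact CUT_const _ _

end CUTsec

theorem CUT (hCTT : CTT_stmt) (hLSC : LSC_stmt) (hGRR : GRR_stmt) (hMES : MES_stmt) : CUT_stmt := by
  intro V _ _ _ _ _ _ hV A z hA hz
  have hg : Continuous (gr z) := ((hGRR V hV).1 z hz.smooth).continuous
  have hm : Measurable (fun t => liminf (fun k => COA_S A z k t) atTop) :=
    Measurable.liminf fun k => COA_S_meas A z hz.smooth.continuous hg k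
  have hv : (volume (Ioo (0 : ℝ) 1)) = 1 := by simp
  obtain ⟨t, ht, hle⟩ := exists_le_setLAverage (μ := (volume : Measure ℝ)) (s := Ioo (0 : ℝ) 1)
    (by rw [hv]; norm_num) (by rw [hv]; norm_num) (hm.aemeasurable)
  refine ⟨t, ht, (CUT_slice hCTT hLSC hGRR hMES hV A z hA hz t ht.1).trans ?_⟩
  refine add_le_add le_rfl (mul_le_mul' le_rfl ?_)
  refine hle.trans ?_
  rw [setLAverage_eq, hv, div_one]
  exact COA_slice A z hz.smooth.continuous hg

end Pool.Agent.MLG
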