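import Pool.Agent.helper17.MLG.Spec

set_option autoImplicit false
set_option linter.unusedSectionVars false

namespace Pool.Agent.MLG

open MeasureTheory Set Filter Topology Module
open scoped ENNReal ContDiff

section TVSsec

variable {V : Type} [NormedAddCommGroup V] [InnerProductSpace ℝ V] [FiniteDimensional ℝ V] [MeasurableSpace V]
  [BorelSpace V] [Group V]

theorem TVS_le (hIBP : IBP_stmt) (hV : IsLie V) (w : V → ℝ) (hw : ContDiff ℝ ∞ w) :
    tv w ≤ ∫⁻ x, ‖gr w x‖ₑ ∂(vol V) := by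
  unfold tv
  refine iSup₂_le fun a ha => ?_
  have h1 := (hIBP V hV a ha.smooth ha.supp).2.2 w (hw.of_le (by norm_num))
  rw [h1]
  calc ENNReal.ofReal (-∫ x, inner ℝ (gr w x) (a x) ∂(vol V))
      ≤ ‖-∫ x, inner ℝ (gr w x) (a x) ∂(vol V)‖ₑ := by
        rw [← ofReal_norm]
        exact ENNReal.ofReal_le_ofReal (le_abs_self _)
    _ = ‖∫ x, inner ℝ (gr w x) (a x) ∂(vol V)‖ₑ := enorm_neg _
    _ ≤ ∫⁻ x, ‖inner ℝ (gr w x) (a x)‖ₑ ∂(vol V) := enorm_integral_le_lintegral_enorm _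
    _ ≤ ∫⁻ x, ‖gr w x‖ₑ ∂(vol V) := by
        refine lintegral_mono fun x => ?_
        rw [← ofReal_norm, ← ofReal_norm]
        refine ENNReal.ofReal_le_ofReal ?_
        calc ‖inner ℝ (gr w x) (a x)‖ ≤ ‖gr w x‖ * ‖a x‖ := norm_inner_le_norm _ _
          _ ≤ ‖gr w x‖ * 1 := by
              exact mul_le_mul_of_nonneg_left (ha.le_one x) (norm_nonneg _)
          _ = ‖gr w x‖ := mul_one _

/-- cut-off functions -/
noncomputable def TVS_bump (V : Type) [NormedAddCommGroup V] [InnerProductSpace ℝ V] (k : ℕ) :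
    ContDiffBump (0 : V) where
  rIn := k + 1
  rOut := k + 2
  rIn_pos := by positivity
  rIn_lt_rOut := by linarith

noncomputable def TVS_a (w : V → ℝ) (k : ℕ) (x : V) : V :=
  (-(TVS_bump V k x / Real.sqrt (‖gr w x‖ ^ 2 + 1 / ((k : ℝ) + 1)))) • gr w x

noncomputable def TVS_g (w : V → ℝ) (k : ℕ) (x : V) : ℝ :=
  TVS_bump V k x / Real.sqrt (‖gr w x‖ ^ 2 + 1 / ((k : ℝ) + 1)) * ‖gr w x‖ ^ 2

theorem TVS_pos (w : V → ℝ) (k : ℕ) (x : V) : 0 < ‖gr w x‖ ^ 2 + 1 / ((k : ℝ) + 1) := by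
  have : (0 : ℝ) < 1 / ((k : ℝ) + 1) := by positivity
  have := sq_nonneg ‖gr w x‖
  linarith

theorem TVS_coef (w : V → ℝ) (hw : ContDiff ℝ ∞ (gr w)) (k : ℕ) :
    ContDiff ℝ 1 (fun x => TVS_bump V k x / Real.sqrt (‖gr w x‖ ^ 2 + 1 / ((k : ℝ) + 1))) := by
  have h1 : ContDiff ℝ 1 (gr w) := hw.of_le (by norm_num)
  have h2 : ContDiff ℝ 1 (fun x => Real.sqrt (‖gr w x‖ ^ 2 + 1 / ((k : ℝ) + 1))) := by
    refine ContDiff.sqrt ?_ (fun x => (TVS_pos w k x).ne')
    exact (h1.norm_sq ℝ).add contDiff_const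
  exact (TVS_bump V k).contDiff.div h2 (fun x => (Real.sqrt_pos.2 (TVS_pos w k x)).ne')

theorem TVS_adm (w : V → ℝ) (hw : ContDiff ℝ ∞ (gr w)) (k : ℕ) : Adm (TVS_a w k) where
  smooth := ((TVS_coef w hw k).neg).smul (hw.of_le (by norm_num))
  supp := by
    have h : HasCompactSupport (fun x => TVS_bump V k x) := (TVS_bump V k).hasCompactSupport
    refine h.mono' ?_
    refine subset_trans ?_ subset_closure
    intro x hx
    rw [Function.mem_support] at hx ⊢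
    intro h0
    apply hx
    simp [TVS_a, h0]
  le_one x := by
    unfold TVS_a
    have hs := Real.sqrt_pos.2 (TVS_pos w k x)
    have h0 : 0 ≤ TVS_bump V k x := (TVS_bump V k).nonneg
    have h1 : TVS_bump V k x ≤ 1 := (TVS_bump V k).le_one
    have h2 : ‖gr w x‖ ≤ Real.sqrt (‖gr w x‖ ^ 2 + 1 / ((k : ℝ) + 1)) := by
      refine Real.le_sqrt_of_sq_le ?_
      have : (0 : ℝ) < 1 / ((k : ℝ) + 1) := by positivity
      linarith
    rw [norm_smul, norm_neg, Real.norm_eq_abs, abs_of_nonneg (div_nonneg h0 hs.le), div_mul_eq_mul_div,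
      div_le_one hs]
    calc TVS_bump V k x * ‖gr w x‖ ≤ 1 * ‖gr w x‖ := mul_le_mul_of_nonneg_right h1 (norm_nonneg _)
      _ ≤ _ := by rw [one_mul]; exact h2

theorem TVS_lim (w : V → ℝ) (x : V) :
    Tendsto (fun k => ENNReal.ofReal (TVS_g w k x)) atTop (𝓝 ‖gr w x‖ₑ) := by
  rw [← ofReal_norm]
  refine ENNReal.tendsto_ofReal ?_
  have hb : ∀ᶠ k : ℕ in atTop, TVS_bump V k x = 1 := by
    obtain ⟨N, hN⟩ := exists_nat_ge ‖x‖
    filter_upwards [eventually_ge_atTop N] with k hk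
    refine (TVS_bump V k).one_of_mem_closedBall ?_
    rw [mem_closedBall_zero_iff]
    have : (N : ℝ) ≤ k := by exact_mod_cast hk
    change ‖x‖ ≤ (k : ℝ) + 1
    linarith
  have h1 : Tendsto (fun k : ℕ => ‖gr w x‖ ^ 2 + 1 / ((k : ℝ) + 1)) atTop (𝓝 (‖gr w x‖ ^ 2 + 0)) :=
    tendsto_const_nhds.add tendsto_one_div_add_atTop_nhds_zero_nat
  rw [add_zero] at h1
  have h2 : Tendsto (fun k : ℕ => Real.sqrt (‖gr w x‖ ^ 2 + 1 / ((k : ℝ) + 1))) atTop (𝓝 ‖gr w x‖) := by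
    have := (Real.continuous_sqrt.tendsto _).comp h1
    rw [Real.sqrt_sq (norm_nonneg _)] at this
    exact this
  by_cases h0 : ‖gr w x‖ = 0
  · rw [h0]
    refine tendsto_const_nhds.congr fun k => ?_
    simp [TVS_g, h0]
  · have h3 : Tendsto (fun k : ℕ => 1 / Real.sqrt (‖gr w x‖ ^ 2 + 1 / ((k : ℝ) + 1)) * ‖gr w x‖ ^ 2)
        atTop (𝓝 (1 / ‖gr w x‖ * ‖gr w x‖ ^ 2)) := (tendsto_const_nhds.div h2 h0).mul_const _
    have h4 : 1 / ‖gr w x‖ * ‖gr w x‖ ^ 2 = ‖gr w x‖ := by field_simp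
    rw [h4] at h3
    refine h3.congr' ?_
    filter_upwards [hb] with k hk
    simp only [TVS_g, hk]

theorem TVS_ge (hIBP : IBP_stmt) (hGRR : GRR_stmt) (hMES : MES_stmt) (hV : IsLie V) (w : V → ℝ)
    (hw : ContDiff ℝ ∞ w) : ∫⁻ x, ‖gr w x‖ₑ ∂(vol V) ≤ tv w := by
  have : (vol V).IsHaarMeasure := (hMES V hV).1
  have hg : ContDiff ℝ ∞ (gr w) := (hGRR V hV).1 w hw
  have hcont : ∀ k, Continuous (TVS_g w k) := fun k =>
    ((TVS_coef w hg k).continuous).mul (hg.continuous.norm.pow 2)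
  have hsupp : ∀ k, HasCompactSupport (TVS_g w k) := by
    intro k
    have h : HasCompactSupport (fun x => TVS_bump V k x) := (TVS_bump V k).hasCompactSupport
    refine h.mono' ?_
    refine subset_trans ?_ subset_closure
    intro x hx
    rw [Function.mem_support] at hx ⊢
    intro h0
    apply hx
    simp [TVS_g, h0]
  have hnn : ∀ k x, 0 ≤ TVS_g w k x := by
    intro k x
    have h0 : 0 ≤ TVS_bump V k x := (TVS_bump V k).nonneg
    exact mul_nonneg (div_nonneg h0 (Real.sqrt_nonneg _)) (sq_nonneg _)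
  have hkey : ∀ k, ∫⁻ x, ENNReal.ofReal (TVS_g w k x) ∂(vol V) ≤ tv w := by
    intro k
    have hint : Integrable (TVS_g w k) (vol V) := (hcont k).integrable_of_hasCompactSupport (hsupp k)
    rw [← ofReal_integral_eq_lintegral_ofReal hint (Eventually.of_forall (hnn k))]
    have h1 := (hIBP V hV (TVS_a w k) (TVS_adm w hg k).smooth (TVS_adm w hg k).supp).2.2 w
      (hw.of_le (by norm_num))
    have h2 : ∫ x, w x * dvg (TVS_a w k) x ∂(vol V) = ∫ x, TVS_g w k x ∂(vol V) := by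
      rw [h1, ← integral_neg]
      refine integral_congr_ae (Eventually.of_forall fun x => ?_)
      simp only [TVS_a, TVS_g, inner_smul_right, real_inner_self_eq_norm_sq]
      ring
    rw [← h2]
    unfold tv
    exact le_iSup₂ (f := fun (a : V → V) (_ : Adm a) => ENNReal.ofReal (∫ x, w x * dvg a x ∂(vol V)))
      (TVS_a w k) (TVS_adm w hg k)
  calc ∫⁻ x, ‖gr w x‖ₑ ∂(vol V)
      = ∫⁻ x, liminf (fun k => ENNReal.ofReal (TVS_g w k x)) atTop ∂(vol V) := by
        refine lintegral_congr fun x => ?_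
        exact (TVS_lim w x).liminf_eq.symm
    _ ≤ liminf (fun k => ∫⁻ x, ENNReal.ofReal (TVS_g w k x) ∂(vol V)) atTop :=
        lintegral_liminf_le fun k => (hcont k).measurable.ennreal_ofReal
    _ ≤ tv w := by
        refine liminf_le_of_frequently_le' ?_
        exact Frequently.of_forall hkey

end TVSsec

theorem TVS (hIBP : IBP_stmt) (hGRR : GRR_stmt) (hMES : MES_stmt) : TVS_stmt := by
  intro V _ _ _ _ _ _ hV w hw
  exact le_antisymm (TVS_le hIBP hV w hw) (TVS_ge hIBP hGRR hMES hV w hw)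

end Pool.Agent.MLG
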