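import Pool.Agent.helper17.MLG.Spec

set_option autoImplicit false
set_option linter.unusedSectionVars false

namespace Pool.Agent.MLG

open MeasureTheory Set Filter Topology Module
open scoped ENNReal ContDiff

/-! ### The one-variable function -/

theorem COA_contDiff (n : WithTop ℕ∞) (hn : n ≤ (∞ : WithTop ℕ∞)) : ContDiff ℝ n Real.smoothTransition :=
  (Real.smoothTransition.contDiff (n := ⊤)).of_le hn

theorem COA_diff : Differentiable ℝ Real.smoothTransition :=
  (COA_contDiff 1 (by norm_num)).differentiable (by norm_num)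

theorem COA_cont_deriv : Continuous (deriv Real.smoothTransition) :=
  (COA_contDiff 1 (by norm_num)).continuous_deriv (by norm_num)

theorem COA_deriv_nonneg (y : ℝ) : 0 ≤ deriv Real.smoothTransition y :=
  Real.smoothTransition.monotone.deriv_nonneg

theorem COA_deriv_zero (y : ℝ) (hy : y < 0 ∨ 1 < y) : deriv Real.smoothTransition y = 0 := by
  rcases hy with hy | hy
  · have : Real.smoothTransition =ᶠ[𝓝 y] fun _ => 0 := by
      filter_upwards [Iio_mem_nhds hy] with z hz
      exact Real.smoothTransition.zero_of_nonpos (le_of_lt hz)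
    rw [this.deriv_eq]
    simp
  · have : Real.smoothTransition =ᶠ[𝓝 y] fun _ => 1 := by
      filter_upwards [Ioi_mem_nhds hy] with z hz
      exact Real.smoothTransition.one_of_one_le (le_of_lt hz)
    rw [this.deriv_eq]
    simp

/-- the step function of width `1 / (k + 1)` -/
noncomputable def COA_st (k : ℕ) (t s : ℝ) : ℝ := Real.smoothTransition (((k : ℝ) + 1) * (s - t))

/-- its derivative in `s` -/
noncomputable def COA_ds (k : ℕ) (t s : ℝ) : ℝ :=
  ((k : ℝ) + 1) * deriv Real.smoothTransition (((k : ℝ) + 1) * (s - t))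

theorem COA_st_hasDeriv (k : ℕ) (t s : ℝ) : HasDerivAt (COA_st k t) (COA_ds k t s) s := by
  unfold COA_st COA_ds
  have h1 : HasDerivAt (fun s : ℝ => ((k : ℝ) + 1) * (s - t)) (((k : ℝ) + 1) * 1) s :=
    ((hasDerivAt_id s).sub_const t).const_mul _
  have h2 := (COA_diff (((k : ℝ) + 1) * (s - t))).hasDerivAt.comp s h1
  refine h2.congr_deriv ?_
  ring

theorem COA_st_deriv (k : ℕ) (t s : ℝ) : deriv (COA_st k t) s = COA_ds k t s :=
  (COA_st_hasDeriv k t s).deriv

theorem COA_ds_nonneg (k : ℕ) (t s : ℝ) : 0 ≤ COA_ds k t s :=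
  mul_nonneg (by positivity) (COA_deriv_nonneg _)

theorem COA_ds_cont (k : ℕ) : Continuous (fun p : ℝ × ℝ => COA_ds k p.1 p.2) := by
  unfold COA_ds
  exact continuous_const.mul (COA_cont_deriv.comp (continuous_const.mul (continuous_snd.sub continuous_fst)))

theorem COA_st_smooth (k : ℕ) (t : ℝ) : ContDiff ℝ ∞ (COA_st k t) := by
  unfold COA_st
  exact (COA_contDiff ∞ le_rfl).comp (contDiff_const.mul (contDiff_id.sub contDiff_const))

theorem COA_st_nonneg (k : ℕ) (t s : ℝ) : 0 ≤ COA_st k t s := Real.smoothTransition.nonneg _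

theorem COA_st_le_one (k : ℕ) (t s : ℝ) : COA_st k t s ≤ 1 := Real.smoothTransition.le_one _

theorem COA_int (k : ℕ) (s : ℝ) : ∫⁻ t, ENNReal.ofReal (COA_ds k t s) = 1 := by
  have hd : ∀ t, HasDerivAt (fun t => -COA_st k t s) (COA_ds k t s) t := by
    intro t
    unfold COA_st COA_ds
    have h1 : HasDerivAt (fun t : ℝ => ((k : ℝ) + 1) * (s - t)) (((k : ℝ) + 1) * (-1)) t :=
      ((hasDerivAt_id t).const_sub s).const_mul _
    have h2 := ((COA_diff (((k : ℝ) + 1) * (s - t))).hasDerivAt.comp t h1).neg
    refine h2.congr_deriv ?_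
    ring
  have hcont : Continuous (fun t => COA_ds k t s) :=
    (COA_ds_cont k).comp (continuous_id.prodMk continuous_const)
  have hk : (0 : ℝ) < (k : ℝ) + 1 := by positivity
  have hk1 : (1 : ℝ) ≤ (k : ℝ) + 1 := by
    have : (0 : ℝ) ≤ k := by positivity
    linarith
  have hsupp : HasCompactSupport (fun t => COA_ds k t s) := by
    refine HasCompactSupport.of_support_subset_isCompact (isCompact_Icc (a := s - 1) (b := s)) ?_
    intro t ht
    rw [Function.mem_support] at ht
    by_contra hcon
    apply ht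
    unfold COA_ds
    rw [mem_Icc, not_and_or, not_le, not_le] at hcon
    rw [COA_deriv_zero, mul_zero]
    rcases hcon with h | h
    · right
      calc (1 : ℝ) < s - t := by linarith
        _ = 1 * (s - t) := (one_mul _).symm
        _ ≤ ((k : ℝ) + 1) * (s - t) := mul_le_mul_of_nonneg_right hk1 (by linarith)
    · left
      exact mul_neg_of_pos_of_neg hk (by linarith)
  have hint : Integrable (fun t => COA_ds k t s) := hcont.integrable_of_hasCompactSupport hsupp
  have hbot : Tendsto (fun t => -COA_st k t s) atBot (𝓝 (-1)) := by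
    refine tendsto_const_nhds.congr' ?_
    filter_upwards [eventually_le_atBot (s - 1)] with t ht
    unfold COA_st
    rw [Real.smoothTransition.one_of_one_le]
    calc (1 : ℝ) ≤ s - t := by linarith
      _ = 1 * (s - t) := (one_mul _).symm
      _ ≤ ((k : ℝ) + 1) * (s - t) := mul_le_mul_of_nonneg_right hk1 (by linarith)
  have htop : Tendsto (fun t => -COA_st k t s) atTop (𝓝 0) := by
    refine tendsto_const_nhds.congr' ?_
    filter_upwards [eventually_ge_atTop s] with t ht
    unfold COA_st
    rw [Real.smoothTransition.zero_of_nonpos, neg_zero]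
    exact mul_nonpos_of_nonneg_of_nonpos hk.le (by linarith)
  have h := integral_of_hasDerivAt_of_tendsto hd hint hbot htop
  rw [← ofReal_integral_eq_lintegral_ofReal hint (Eventually.of_forall fun t => COA_ds_nonneg k t s), h]
  norm_num

theorem COA_st_lim (t s : ℝ) :
    Tendsto (fun k : ℕ => COA_st k t s) atTop (𝓝 (if t < s then 1 else 0)) := by
  by_cases h : t < s
  · rw [if_pos h]
    refine tendsto_const_nhds.congr' ?_
    obtain ⟨N, hN⟩ := exists_nat_ge (1 / (s - t))
    filter_upwards [eventually_ge_atTop N] with k hk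
    unfold COA_st
    rw [Real.smoothTransition.one_of_one_le]
    have h1 : 0 < s - t := by linarith
    have h2 : (N : ℝ) ≤ k := by exact_mod_cast hk
    have h3 : 1 / (s - t) ≤ (k : ℝ) + 1 := by linarith
    rwa [div_le_iff₀ h1] at h3
  · rw [if_neg h]
    refine tendsto_const_nhds.congr fun k => ?_
    unfold COA_st
    rw [Real.smoothTransition.zero_of_nonpos]
    exact mul_nonpos_of_nonneg_of_nonpos (by positivity) (by linarith [not_lt.1 h])

section COAsec

variable {V : Type} [NormedAddCommGroup V] [InnerProductSpace ℝ V] [FiniteDimensional ℝ V] [MeasurableSpace V]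
  [BorelSpace V] [Group V]

theorem COA_sfinite : SFinite (vol V) := by
  unfold vol
  infer_instance

theorem COA_per (E : Set V) (hE : MeasurableSet E) : per E = tv (ind E) := by
  unfold per tv
  refine iSup_congr fun a => iSup_congr fun _ => ?_
  rw [← integral_indicator hE]
  refine congrArg _ (integral_congr_ae (Eventually.of_forall fun x => ?_))
  by_cases hx : x ∈ E
  · simp [hx]
  · simp [hx]

theorem COA_isU_ind (E : Set V) (hE : MeasurableSet E) : IsU (ind E) where
  meas := measurable_const.indicator hE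
  nonneg x := Set.indicator_nonneg (fun _ _ => zero_le_one) x
  le_one x := Set.indicator_le_self' (fun _ _ => zero_le_one) x

/-- bounded pointwise convergence implies `L1` -/
theorem COA_L1 (hV : IsLie V) (hMES : MES_stmt) (f : ℕ → V → ℝ) (g : V → ℝ)
    (hf : ∀ k, Measurable (f k)) (hg : Measurable g) (hb : ∀ k x, |f k x - g x| ≤ 1)
    (hl : ∀ x, Tendsto (fun k => f k x) atTop (𝓝 (g x))) : L1 f g := by
  have : (vol V).IsHaarMeasure := (hMES V hV).1
  intro C hC
  have h := tendsto_lintegral_of_dominated_convergence (μ := (vol V).restrict C)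
    (F := fun k x => ENNReal.ofReal |f k x - g x|) (f := fun _ => 0) (fun _ => 1)
    (fun k => (((hf k).sub hg).abs).ennreal_ofReal)
    (fun k => Eventually.of_forall fun x => by
      rw [← ENNReal.ofReal_one]
      exact ENNReal.ofReal_le_ofReal (hb k x))
    (by
      rw [lintegral_const, one_mul, Measure.restrict_apply_univ]
      exact hC.measure_lt_top.ne)
    (Eventually.of_forall fun x => by
      have h1 : Tendsto (fun k => |f k x - g x|) atTop (𝓝 |g x - g x|) :=
        ((hl x).sub tendsto_const_nhds).abs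
      rw [sub_self, abs_zero] at h1
      have h2 := ENNReal.tendsto_ofReal h1
      rwa [ENNReal.ofReal_zero] at h2)
  rwa [lintegral_zero] at h

/-- the slice integrals -/
noncomputable def COA_S (A : Set V) (z : V → ℝ) (k : ℕ) (t : ℝ) : ℝ≥0∞ :=
  ∫⁻ x in A, ENNReal.ofReal (COA_ds k t (z x)) * ‖gr z x‖ₑ ∂(vol V)

theorem COA_slice_meas2 (z : V → ℝ) (hz : Continuous z) (hg : Continuous (gr z)) (k : ℕ) :
    Measurable (fun p : ℝ × V => ENNReal.ofReal (COA_ds k p.1 (z p.2)) * ‖gr z p.2‖ₑ) := by
  have h1 : Continuous (fun p : ℝ × V => COA_ds k p.1 (z p.2)) :=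
    (COA_ds_cont k).comp (continuous_fst.prodMk (hz.comp continuous_snd))
  have h2 : Continuous (fun p : ℝ × V => gr z p.2) := hg.comp continuous_snd
  exact h1.measurable.ennreal_ofReal.mul h2.measurable.enorm

theorem COA_S_meas (A : Set V) (z : V → ℝ) (hz : Continuous z) (hg : Continuous (gr z)) (k : ℕ) :
    Measurable (COA_S A z k) := by
  have := COA_sfinite (V := V)
  unfold COA_S
  exact (COA_slice_meas2 z hz hg k).lintegral_prod_right'

theorem COA_slice (A : Set V) (z : V → ℝ) (hz : Continuous z) (hg : Continuous (gr z)) :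
    ∫⁻ t in Ioo (0 : ℝ) 1, liminf (fun k => COA_S A z k t) atTop ≤ ∫⁻ x in A, ‖gr z x‖ₑ ∂(vol V) := by
  have := COA_sfinite (V := V)
  calc ∫⁻ t in Ioo (0 : ℝ) 1, liminf (fun k => COA_S A z k t) atTop
      ≤ ∫⁻ t, liminf (fun k => COA_S A z k t) atTop := setLIntegral_le_lintegral _ _
    _ ≤ liminf (fun k => ∫⁻ t, COA_S A z k t) atTop := lintegral_liminf_le fun k => COA_S_meas A z hz hg k
    _ ≤ ∫⁻ x in A, ‖gr z x‖ₑ ∂(vol V) := by
        refine liminf_le_of_frequently_le' (Frequently.of_forall fun k => ?_)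
        unfold COA_S
        rw [lintegral_lintegral_swap (COA_slice_meas2 z hz hg k).aemeasurable]
        refine lintegral_mono fun x => ?_
        have h1 : Continuous (fun t => COA_ds k t (z x)) :=
          (COA_ds_cont k).comp (continuous_id.prodMk continuous_const)
        change ∫⁻ t, ENNReal.ofReal (COA_ds k t (z x)) * ‖gr z x‖ₑ ≤ _
        rw [lintegral_mul_const _ h1.measurable.ennreal_ofReal, COA_int, one_mul]

theorem COA_enorm_gr (hGRR : GRR_stmt) (hV : IsLie V) (z : V → ℝ) (hz : Differentiable ℝ z) (k : ℕ)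
    (t : ℝ) (x : V) :
    ‖gr (fun y => COA_st k t (z y)) x‖ₑ = ENNReal.ofReal (COA_ds k t (z x)) * ‖gr z x‖ₑ := by
  have h := (hGRR V hV).2.2.2.2.1 z (COA_st k t) hz ((COA_st_smooth k t).differentiable (by norm_num)) x
  rw [h, COA_st_deriv, enorm_smul, Real.enorm_of_nonneg (COA_ds_nonneg k t (z x))]

end COAsec

end Pool.Agent.MLG
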